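import Pool.Agent.Helper42.QC.Fin
import Pool.Agent.Helper11.QD.K2
import Pool.Agent.Helper17.QDX.C1
import Pool.Agent.Helper24.QDX.VAL
import Pool.Agent.Helper26.QD.IW
import Pool.Agent.Helper30.QD.FP2
import Pool.Agent.Helper33.QD.FP3
import Pool.Agent.Helper42.QM.ABS
import Pool.Agent.Helper42.QM.CONM
import Pool.Agent.Helper42.QM.DG2
import Pool.Agent.Helper42.QM.SUP
import Pool.Agent.Helper44.QC.CPL
import Pool.Agent.Helper44.QD.DZ
import Pool.Agent.Helper46.QDX.NRM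
import Pool.Agent.Helper50.QD.CV
import Pool.Agent.Helper52.QD.KIR
import Pool.Agent.Helper53.QD.K4
import Pool.Agent.Helper55.QD.SCL
import Pool.Agent.Helper61.QD.A
import Pool.Agent.Helper63.QD.FP1
import Pool.Agent.Helper64.QD.K1
import Pool.Agent.Helper67.QC.CHR
import Pool.Agent.Helper68.QD.ALK2
import Pool.Agent.Helper68.QD.EXT
import Pool.Agent.Helper68.QD.TRC
import Pool.Agent.Helper7.QC.TWK
import Pool.Agent.Helper72.QD.TW
import Pool.Agent.Helper74.QD.CO1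
import Pool.Agent.Helper74.QD.DZ0
import Pool.Agent.Helper77.QD.C2A
import Pool.Agent.Helper78.QD.FJ
import Pool.Agent.Helper8.QD.OM
import Pool.Agent.Helper8.QD.RES
import Pool.Agent.Helper81.QD.FE
import Pool.Agent.Helper81.QD.FF
import Pool.Agent.Helper83.QD.FN
import Pool.Agent.Helper84.QD.K3
import Pool.Agent.Helper85.QD.FT
import Pool.Agent.Helper86.QD.DIAG
import Pool.Agent.Helper86.QD.EIG
import Pool.Agent.Helper89.QD.EXB
import Pool.Agent.Helper91.QD.F4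
import Pool.Agent.Helper94.QD.ALK1
import Pool.Agent.Helper94.QD.C1A
import Pool.Agent.Helper95.QD.DG3
import Pool.Agent.Helper96.QD.C2
import Pool.Agent.Helper97.QD.CO2
import Pool.Agent.Helper97.QD.FIL
import Pool.Agent.Helper97.QD.PSI
import Pool.Agent.Helper97.QD.TR1

/-! Assembly. -/

namespace Pool.Agent.Helper42.QC

open Pool.Agent.Helper42.QD

theorem t_A : ST_A := Pool.Agent.Helper42.QD.st_A
theorem t_IW : ST_IW := Pool.Agent.Helper42.QD.st_IW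
theorem t_OM : ST_OM := Pool.Agent.Helper8.QD.st_OM t_A
theorem t_EXB : ST_EXB := Pool.Agent.Helper42.QD.st_EXB t_A
theorem t_SUP : ST_SUP := Pool.Agent.Helper42.QD.st_SUP
theorem t_CON : ST_CON := Pool.Agent.Helper42.QD.st_CON t_SUP
theorem t_C1A : ST_C1A := Pool.Agent.Helper42.QD.st_C1A t_EXB t_CON t_A
theorem t_ALK1 : ST_ALK1 := Pool.Agent.Helper42.QD.st_ALK1
theorem t_EIG : ST_EIG := Pool.Agent.Helper42.QD.st_EIG
theorem t_DG2 : ST_DG2 := Pool.Agent.Helper42.QM.st_DG2 t_SUP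
theorem t_DG3 : ST_DG3 := Pool.Agent.Helper42.QD.st_DG3 t_SUP
theorem t_DIAG : ST_DIAG := Pool.Agent.Helper42.QD.st_DIAG t_DG2 t_DG3
theorem t_C1 : ST_C1 := Pool.Agent.Helper17.QDX.st_C1 t_OM t_C1A t_ALK1 t_EIG t_DIAG
theorem t_F4 : ST_F4 := Pool.Agent.Helper42.QD.st_F4
theorem t_C2A : ST_C2A := Pool.Agent.Helper77.QD.st_C2A t_EXB t_F4
theorem t_ALK2 : ST_ALK2 := Pool.Agent.Helper42.QD.st_ALK2
theorem t_TW : ST_TW := Pool.Agent.Helper72.QD.st_TW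
theorem t_C2 : ST_C2 := Pool.Agent.Helper42.QD.st_C2 t_OM t_C2A t_ALK2 t_EIG t_DIAG t_TW
theorem t_DZ0 : ST_DZ0 := Pool.Agent.Helper42.QD.st_DZ0
theorem t_FN : ST_FN := Pool.Agent.Helper42.QD.st_FN
theorem t_FJ : ST_FJ := Pool.Agent.Helper42.QD.st_FJ
theorem t_FT : ST_FT := Pool.Agent.Helper42.QD.st_FT
theorem t_FE : ST_FE := Pool.Agent.Helper42.QD.st_FE
theorem t_FP1 : ST_FP1 := Pool.Agent.Helper42.QD.st_FP1
theorem t_FP2 : ST_FP2 := Pool.Agent.Helper42.QD.st_FP2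
theorem t_FP3 : ST_FP3 := Pool.Agent.Helper42.QD.st_FP3
theorem t_FF : ST_FF := Pool.Agent.Helper42.QD.st_FF t_FN t_FJ t_FT t_FE t_FP1 t_FP2 t_FP3
theorem t_DZ : ST_DZ := Pool.Agent.Helper42.QD.st_DZ t_A t_DZ0 t_FF
theorem t_ABS : ST_ABS := Pool.Agent.Helper42.QD.st_ABS t_IW t_C1 t_C2 t_DZ
theorem t_EXT : ST_EXT := Pool.Agent.Helper42.QC.st_EXT
theorem t_CHR : ST_CHR := Pool.Agent.Helper42.QC.st_CHR t_EXT
theorem t_CO1 : ST_CO1 := Pool.Agent.Helper42.QC.st_CO1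
theorem t_CO2 : ST_CO2 := Pool.Agent.Helper42.QC.st_CO2
theorem t_FIL : ST_FIL := Pool.Agent.Helper42.QC.st_FIL t_CO1
theorem t_CPL : ST_CPL := Pool.Agent.Helper42.QC.st_CPL t_CO1 t_FIL
theorem t_TRC : ST_TRC := Pool.Agent.Helper42.QC.st_TRC t_CO1
theorem t_RES : ST_RES := Pool.Agent.Helper8.QD.st_RES
theorem t_VAL : ST_VAL := Pool.Agent.Helper42.QC.st_VAL t_CO1 t_CO2
theorem t_TR1 : ST_TR1 := Pool.Agent.Helper42.QC.st_TR1 t_RES
theorem t_PSI : ST_PSI := Pool.Agent.Helper42.QC.st_PSI t_CO1 t_TR1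
theorem t_CV : ST_CV := Pool.Agent.Helper42.QC.st_CV t_CO1 t_CO2 t_TRC t_RES t_VAL t_PSI
theorem t_K1 : ST_K1 := Pool.Agent.Helper42.QD.st_K1
theorem t_K2 : ST_K2 := Pool.Agent.Helper42.QD.st_K2
theorem t_K3 : ST_K3 := Pool.Agent.Helper84.QD.K3.st_K3
theorem t_K4 : ST_K4 := Pool.Agent.Helper42.QD.st_K4
theorem t_KIR : ST_KIR := Pool.Agent.Helper52.QD.st_KIR t_K1 t_K2 t_K3 t_K4
theorem t_NRM : ST_NRM := Pool.Agent.Helper42.QC.st_NRM
theorem t_SCL : ST_SCL := Pool.Agent.Helper42.QC.st_SCL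
theorem t_TWK : ST_TWK := Pool.Agent.Helper42.QC.st_TWK t_CO1 t_FIL t_NRM t_CHR t_TR1

theorem main_all : MAIN2 := main2 t_CV t_CPL t_TWK t_FIL t_SCL t_KIR t_ABS

end Pool.Agent.Helper42.QC
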