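import Pool.Agent.Helper42.QD.Base

namespace Pool.Agent.Helper42.QC

open Pool.Agent.Helper42.QD

/-- A division algebra over a non-archimedean local field `F`: a complete field `K` with a discrete
valuation ring `A` (uniformizer `pi`), finite residue field, an automorphism `sig` of `K` with
`sig ^ d = 1` preserving `A`, fixing `pi`, such that `sig ^ j` acts non-trivially on the residue field
for `0 < j < d` (so `K` is the unramified extension of degree `d` of the fixed field `F` of `sig`);
and a division ring `D` containing `K` (embedding `emb`) and an element `T` with `T a = sig a T`,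
`T ^ d = pi`, such that every element `y` of `D` can be written uniquely as the sum of the
`emb (co y i) * T ^ i`, `i < d`. -/
structure CD (K D : Type) [Field K] [DivisionRing D] where
  d : ℕ
  A : Subring K
  sig : K ≃+* K
  pi : K
  emb : K →+* D
  T : D
  co : D → ℕ → K
  d2 : 2 ≤ d
  sigd : ∀ x, sig^[d] x = x
  sigA : ∀ x, x ∈ A → sig x ∈ A
  sigpi : sig pi = pi
  pine : pi ≠ 0
  piA : pi ∈ A
  pinv : pi⁻¹ ∉ A
  unif : ∀ x, x ≠ 0 → ∃ (n : ℤ) (u : K), u ∈ A ∧ u⁻¹ ∈ A ∧ x = u * pi ^ n
  fin : ∃ S : Finset K, ∀ x ∈ A, ∃ s ∈ S, (x - s) / pi ∈ A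
  sign : ∀ j, 0 < j → j < d → ∃ x ∈ A, (sig^[j] x - x) / pi ∉ A
  compl : ∀ a : ℕ → K, (∀ n, (a (n + 1) - a n) / pi ^ n ∈ A) → ∃ x, ∀ n, (x - a n) / pi ^ n ∈ A
  Tmul : ∀ x, T * emb x = emb (sig x) * T
  Tpow : T ^ d = emb pi
  co_zero : ∀ y i, d ≤ i → co y i = 0
  co_spec : ∀ y, y = ∑ i ∈ Finset.range d, emb (co y i) * T ^ i
  co_uniq : ∀ y (a : ℕ → K), (∀ i, d ≤ i → a i = 0) →
    y = ∑ i ∈ Finset.range d, emb (a i) * T ^ i → a = co y

variable {K D : Type} [Field K] [DivisionRing D]

/-- The fixed field `F` of `sig`. -/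
def CD.F (c : CD K D) : Subfield K where
  carrier := {x | c.sig x = x}
  mul_mem' := by
    intro a b ha hb
    change c.sig a = a at ha
    change c.sig b = b at hb
    change c.sig (a * b) = a * b
    rw [map_mul, ha, hb]
  one_mem' := map_one _
  add_mem' := by
    intro a b ha hb
    change c.sig a = a at ha
    change c.sig b = b at hb
    change c.sig (a + b) = a + b
    rw [map_add, ha, hb]
  zero_mem' := map_zero _
  neg_mem' := by
    intro a ha
    change c.sig a = a at ha
    change c.sig (-a) = -a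
    rw [map_neg, ha]
  inv_mem' := by
    intro a ha
    change c.sig a = a at ha
    change c.sig a⁻¹ = a⁻¹
    rw [map_inv₀, ha]

/-- Sums over an orbit of `sig` are fixed by `sig`. -/
theorem CD.orb (c : CD K D) (x : K) :
    c.sig (∑ j ∈ Finset.range c.d, c.sig^[j] x) = ∑ j ∈ Finset.range c.d, c.sig^[j] x := by
  rw [map_sum]
  have h1 : ∀ j, c.sig (c.sig^[j] x) = c.sig^[j + 1] x := fun j => by
    rw [Function.iterate_succ_apply']
  simp only [h1]
  have h2 := Finset.sum_range_succ (fun j => c.sig^[j] x) c.d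
  have h3 := Finset.sum_range_succ' (fun j => c.sig^[j] x) c.d
  rw [h2, c.sigd] at h3
  simp only [Function.iterate_zero, id] at h3
  exact (add_right_cancel h3).symm

/-- The reduced trace `D → F`: the trace of the coefficient of `T ^ 0`. -/
def CD.trd (c : CD K D) (y : D) : c.F :=
  ⟨∑ j ∈ Finset.range c.d, c.sig^[j] (c.co y 0), c.orb _⟩

/-- `y ∈ pi ^ m O_D`. -/
def CD.InPi (c : CD K D) (m : ℕ) (y : D) : Prop := ∀ i, c.co y i / c.pi ^ m ∈ c.A

variable {V : Type} [AddCommGroup V] [Module ℂ V]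

/-- Smoothness: every vector is fixed by a principal congruence subgroup. -/
def Smooth (c : CD K D) (ρ : Representation ℂ (G2 D) V) : Prop :=
  ∀ v : V, ∃ m : ℕ, 0 < m ∧ ∀ g : G2 D, (∀ i j, c.InPi m ((g.val - 1) i j)) → ρ g v = v

end Pool.Agent.Helper42.QC
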