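import Pool.Agent.Helper42.QD.Stmts
import Pool.Agent.Helper42.QC.Base

namespace Pool.Agent.Helper42.QC

open Pool.Agent.Helper42.QD

variable {K D : Type} [Field K] [DivisionRing D] {V : Type} [AddCommGroup V] [Module ℂ V]

/-- The main statement. -/
def MAIN2 : Prop :=
  ∀ (K D : Type) [Field K] [DivisionRing D] (c : CD K D) (φ : AddChar c.F ℂ), φ ≠ 1 →
    (∃ n : ℕ, ∀ x : c.F, (x : K) / c.pi ^ n ∈ c.A → φ x = 1) → Even c.d →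
    ∀ (V : Type) [AddCommGroup V] [Module ℂ V] (ρ : Representation ℂ (G2 D) V), Smooth c ρ →
      tsp ρ (fun _ => 1) = ⊤ → Module.finrank ℂ (V ⧸ tsp ρ (fun x => φ (c.trd x))) ≠ 1

/-! Statements. -/

/-- Coefficients: linear formulas. -/
def ST_CO1 : Prop := ∀ (K D : Type) [Field K] [DivisionRing D] (c : CD K D),
  (∀ y z i, c.co (y + z) i = c.co y i + c.co z i) ∧
  (∀ y z i, c.co (y - z) i = c.co y i - c.co z i) ∧
  (∀ a y i, c.co (c.emb a * y) i = a * c.co y i) ∧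
  (∀ a y i, c.co (y * c.emb a) i = c.co y i * c.sig^[i] a) ∧
  (∀ a j i, j < c.d → c.co (c.emb a * c.T ^ j) i = if i = j then a else 0) ∧
  (∀ y i, i + 1 < c.d → c.co (y * c.T) (i + 1) = c.co y i) ∧
  (∀ y, c.co (y * c.T) 0 = c.co y (c.d - 1) * c.pi) ∧
  (∀ y i, i + 1 < c.d → c.co (c.T * y) (i + 1) = c.sig (c.co y i)) ∧
  (∀ y, c.co (c.T * y) 0 = c.sig (c.co y (c.d - 1)) * c.pi)

/-- Coefficients: products of integral elements. -/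
def ST_CO2 : Prop := ∀ (K D : Type) [Field K] [DivisionRing D] (c : CD K D) (y z : D),
  (∀ i, c.co y i ∈ c.A) → (∀ i, c.co z i ∈ c.A) →
  (∀ i, c.co (y * z) i ∈ c.A) ∧ (c.co (y * z) 0 - c.co y 0 * c.co z 0) / c.pi ∈ c.A

/-- The reduced trace is a class function. -/
def ST_TRC : Prop := ∀ (K D : Type) [Field K] [DivisionRing D] (c : CD K D) (x y : D),
  c.trd (x * y) = c.trd (y * x)

/-- The residue field. -/
def ST_RES : Prop := ∀ (K D : Type) [Field K] [DivisionRing D] (c : CD K D),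
  ∃ (k : Type) (_ : Field k) (r : K → k) (s : k ≃+* k), Finite k ∧
    (∀ x ∈ c.A, ∀ y ∈ c.A, r (x + y) = r x + r y) ∧
    (∀ x ∈ c.A, ∀ y ∈ c.A, r (x * y) = r x * r y) ∧ r 1 = 1 ∧
    (∀ x ∈ c.A, (r x = 0 ↔ x / c.pi ∈ c.A)) ∧ (∀ a, ∃ x ∈ c.A, r x = a) ∧
    (∀ x ∈ c.A, r (c.sig x) = s (r x)) ∧ orderOf s = c.d

/-- The valuation of `D`. -/
def ST_VAL : Prop := ∀ (K D : Type) [Field K] [DivisionRing D] (c : CD K D),
  ∃ v : D → ℤ, (∀ x y, x ≠ 0 → y ≠ 0 → v (x * y) = v x + v y) ∧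
    (∀ x y, x ≠ 0 → y ≠ 0 → x + y ≠ 0 → min (v x) (v y) ≤ v (x + y)) ∧ v c.T = 1 ∧
    ∀ (m : ℤ) y, (y = 0 ∨ m ≤ v y) ↔ ∀ i, c.co (c.T ^ (-m) * y) i ∈ c.A

/-- An element of trace one. -/
def ST_TR1 : Prop := ∀ (K D : Type) [Field K] [DivisionRing D] (c : CD K D),
  ∃ a ∈ c.A, ∑ j ∈ Finset.range c.d, c.sig^[j] a = 1

/-- The level of the character. -/
def ST_PSI : Prop := ∀ (K D : Type) [Field K] [DivisionRing D] (c : CD K D) (φ : AddChar c.F ℂ),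
  φ ≠ 1 → (∃ n : ℕ, ∀ x : c.F, (x : K) / c.pi ^ n ∈ c.A → φ x = 1) →
  ∃ e : ℤ, (∀ x : D, (∀ i, c.co (c.T ^ (-1 : ℤ) * x) i ∈ c.A) →
      φ (c.trd (c.emb (c.pi ^ e) * x)) = 1) ∧
    ∃ x : D, (∀ i, c.co x i ∈ c.A) ∧ φ (c.trd (c.emb (c.pi ^ e) * x)) ≠ 1

/-- The valued division ring attached to the data. -/
def ST_CV : Prop := ∀ (K D : Type) [Field K] [DivisionRing D] (c : CD K D) (φ : AddChar c.F ℂ),
  φ ≠ 1 → (∃ n : ℕ, ∀ x : c.F, (x : K) / c.pi ^ n ∈ c.A → φ x = 1) →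
  ∃ (k : Type) (_ : Field k) (_ : Finite k) (c' : VD D k) (e : ℤ),
    orderOf c'.sg = c.d ∧ (∀ x, c'.psi x = φ (c.trd (c.emb (c.pi ^ e) * x))) ∧ c'.T = c.T ∧
    ∀ (m : ℤ) y, c'.P m y ↔ ∀ i, c.co (c.T ^ (-m) * y) i ∈ c.A

/-- Comparison of the filtrations. -/
def ST_FIL : Prop := ∀ (K D : Type) [Field K] [DivisionRing D] (c : CD K D) (m : ℤ) (y : D),
  (∀ i, c.co (c.T ^ (-(c.d * m)) * y) i ∈ c.A) ↔ ∀ i, c.co y i / c.pi ^ m ∈ c.A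

/-- Completeness of `D`. -/
def ST_CPL : Prop := ∀ (K D k : Type) [Field K] [DivisionRing D] [Field k] (c : CD K D)
  (c' : VD D k), (∀ (m : ℤ) y, c'.P m y ↔ ∀ i, c.co (c.T ^ (-m) * y) i ∈ c.A) → Cpl c'

/-- The norm. -/
def ST_NRM : Prop := ∀ (K D : Type) [Field K] [DivisionRing D] (c : CD K D),
  ∃ N : G2 D →* Kˣ, (∀ b, N (nn b) = 1) ∧
    ∀ (m : ℕ) (g : G2 D), (∀ i j, c.InPi m ((g.val - 1) i j)) →
      ((N g : K) - 1 - ∑ j ∈ Finset.range c.d,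
        c.sig^[j] (c.co ((g.val - 1) 0 0 + (g.val - 1) 1 1) 0)) / c.pi ^ (2 * m) ∈ c.A

/-- Extension of characters. -/
def ST_EXT : Prop := ∀ (G : Type) [CommGroup G] (H : Subgroup G) (f : H →* ℂˣ),
  ∃ F : G →* ℂˣ, ∀ h : H, F h = f h

/-- Characters of the multiplicative group with prescribed restriction to `1 + pi ^ m A`. -/
def ST_CHR : Prop := ∀ (K D : Type) [Field K] [DivisionRing D] (c : CD K D) (m : ℕ)
  (xi : K → ℂ), 0 < m → (∀ x ∈ c.A, ∀ y ∈ c.A, xi (x + y) = xi x * xi y) →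
  (∀ x ∈ c.A, x / c.pi ∈ c.A → xi x = 1) →
  ∃ F : Kˣ →* ℂˣ, ∀ (u : Kˣ) (x : K), x ∈ c.A → (u : K) = 1 + c.pi ^ m * x → (F u : ℂ) = xi x

/-- Twisting characters exist. -/
def ST_TWK : Prop := ∀ (K D k : Type) [Field K] [DivisionRing D] [Field k] [Finite k] (c : CD K D)
  (c' : VD D k), c'.T = c.T → orderOf c'.sg = c.d →
  (∀ (m : ℤ) y, c'.P m y ↔ ∀ i, c.co (c.T ^ (-m) * y) i ∈ c.A) → TWC c'

/-- Change of the character. -/
def ST_SCL : Prop := ∀ (D : Type) [DivisionRing D] (V : Type) [AddCommGroup V] [Module ℂ V]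
  (rho : Representation ℂ (G2 D) V) (f : D → ℂ) (z : D), z ≠ 0 →
  Module.finrank ℂ (V ⧸ tsp rho fun x => f (z * x)) = Module.finrank ℂ (V ⧸ tsp rho f)

end Pool.Agent.Helper42.QC
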