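import Pool.Agent.Helper42.QC.Defs

namespace Pool.Agent.Helper42.QC

open Pool.Agent.Helper42.QD

theorem main2 (hCV : ST_CV) (hCPL : ST_CPL) (hTWK : ST_TWK) (hFIL : ST_FIL) (hSCL : ST_SCL)
    (hKIR : ST_KIR) (hABS : ST_ABS) : MAIN2 := by
  intro K D _ _ c φ hφ hn hd V _ _ ρ hs hcusp hfin
  obtain ⟨k, ik, fk, c', e, hsg, hpsi, hT, hP⟩ := hCV K D c φ hφ hn
  have hC : Cpl c' := hCPL K D k c c' hP
  have hTW : TWC c' := hTWK K D k c c' hT hsg hP
  have hev : Even (orderOf c'.sg) := by rw [hsg]; exact hd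
  have hs' : ∀ v : V, ∃ m : ℕ, 0 < m ∧ ∀ g, KK c' m g → ρ g v = v := by
    intro v
    obtain ⟨m, hm, hm'⟩ := hs v
    have hd2 := c.d2
    refine ⟨c.d * m, Nat.mul_pos (by omega) hm, fun g hg => hm' g fun i j => ?_⟩
    have h1 := (hP _ _).1 (hg i j)
    have h2 := (hFIL K D c (m : ℤ) ((g.val - 1) i j)).1 (by push_cast at h1; exact h1)
    intro l
    have := h2 l
    rwa [zpow_natCast] at this
  have hz : c.emb (c.pi ^ e) ≠ 0 := (map_ne_zero c.emb).2 (zpow_ne_zero _ c.pine)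
  have hpsi' : (fun x : D => c'.psi x) = fun x => (fun y => φ (c.trd y)) (c.emb (c.pi ^ e) * x) :=
    funext hpsi
  have h3 : Module.finrank ℂ (V ⧸ tsp ρ c'.psi) = 1 := by
    have := hSCL D V ρ (fun y => φ (c.trd y)) (c.emb (c.pi ^ e)) hz
    rw [← hfin, ← this, ← hpsi']
  exact (hKIR D k c' V ρ hC hs' hcusp h3).elim fun R => hABS D k c' hev hTW R

end Pool.Agent.Helper42.QC
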